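import Pool.Agent.Work.MP_a53fdd_nt.ThreeVectors

set_option autoImplicit false

namespace Pool.Agent.Results.MP_a53fdd_nt.LargePrimePower

open Pool.Agent.QuarticVectors

/-- The representations `{a, b}` of `n`, `0 < a ≤ b`, `a ^ 4 + b ^ 4 = n`. -/
def repSet (n : ℕ) : Set (ℕ × ℕ) := {q | 0 < q.1 ∧ q.1 ≤ q.2 ∧ q.1 ^ 4 + q.2 ^ 4 = n}

/-- The number of representations. -/
noncomputable def r4 (n : ℕ) : ℕ := (repSet n).ncard

/-- One of `a ≡ t b`, `a ≡ -t b`, `b ≡ t a`, `b ≡ -t a` holds modulo `N`. -/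
def InClass (N : ℕ) (t : ℤ) (q : ℕ × ℕ) : Prop :=
  (N : ℤ) ∣ q.1 - t * q.2 ∨ (N : ℤ) ∣ q.1 + t * q.2 ∨
    (N : ℤ) ∣ q.2 - t * q.1 ∨ (N : ℤ) ∣ q.2 + t * q.1

theorem repSet_finite (n : ℕ) : (repSet n).Finite := by
  apply ((Set.finite_Iic n).prod (Set.finite_Iic n)).subset
  rintro ⟨a, b⟩ ⟨h1, h2, h3⟩
  simp only at h1 h2 h3
  have ha : a ≤ a ^ 4 := Nat.le_self_pow (by norm_num) a
  have hb : b ≤ b ^ 4 := Nat.le_self_pow (by norm_num) b
  exact ⟨by simp only [Set.mem_Iic]; omega, by simp only [Set.mem_Iic]; omega⟩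

theorem pow_four_inj {a b : ℤ} (h : a ^ 4 = b ^ 4) : a.natAbs = b.natAbs := by
  have h1 : a.natAbs ^ 4 = b.natAbs ^ 4 := by
    have := congrArg Int.natAbs h
    simpa [Int.natAbs_pow] using this
  exact Nat.pow_left_injective (n := 4) (by norm_num) h1

/-- a vector with the right residue attached to a representation -/
theorem exists_vector {n N : ℕ} {t : ℤ} {q : ℕ × ℕ} (hq : q ∈ repSet n) (hc : InClass N t q) :
    ∃ x y : ℤ, (N : ℤ) ∣ x - t * y ∧ x ^ 4 + y ^ 4 = n ∧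
      ((x.natAbs = q.1 ∧ y.natAbs = q.2) ∨ (x.natAbs = q.2 ∧ y.natAbs = q.1)) := by
  obtain ⟨a, b⟩ := q
  obtain ⟨-, -, h3⟩ := hq
  simp only at h3
  have h3' : (a : ℤ) ^ 4 + (b : ℤ) ^ 4 = n := by exact_mod_cast h3
  rcases hc with h | h | h | h
  · exact ⟨a, b, h, h3', Or.inl ⟨by simp, by simp⟩⟩
  · exact ⟨a, -b, by simpa using h, by rw [← h3']; ring, Or.inl ⟨by simp, by simp⟩⟩
  · exact ⟨b, a, h, by rw [← h3']; ring, Or.inr ⟨by simp, by simp⟩⟩
  · exact ⟨b, -a, by simpa using h, by rw [← h3']; ring, Or.inr ⟨by simp, by simp⟩⟩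

theorem ne_of_vectors {n : ℕ} {q q' : ℕ × ℕ} (hq : q ∈ repSet n) (hq' : q' ∈ repSet n)
    {x y x' y' : ℤ}
    (h : (x.natAbs = q.1 ∧ y.natAbs = q.2) ∨ (x.natAbs = q.2 ∧ y.natAbs = q.1))
    (h' : (x'.natAbs = q'.1 ∧ y'.natAbs = q'.2) ∨ (x'.natAbs = q'.2 ∧ y'.natAbs = q'.1))
    (hx : x ^ 4 = x' ^ 4) (hy : y ^ 4 = y' ^ 4) : q = q' := by
  have ex := pow_four_inj hx
  have ey := pow_four_inj hy
  obtain ⟨a, b⟩ := q
  obtain ⟨c, d⟩ := q'
  have o1 : a ≤ b := hq.2.1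
  have o2 : c ≤ d := hq'.2.1
  simp only at h h'
  have : a = c ∧ b = d := by omega
  rw [this.1, this.2]

theorem cross_ne {n : ℕ} (hn : 0 < n) {x y x' y' : ℤ} (h : x ^ 4 + y ^ 4 = n)
    (h' : x' ^ 4 + y' ^ 4 = n) (hne : ¬ (x ^ 4 = x' ^ 4 ∧ y ^ 4 = y' ^ 4)) :
    x * y' - x' * y ≠ 0 := by
  intro h0
  apply hne
  have e : x * y' = x' * y := by linarith
  have e4 : (x * y') ^ 4 = (x' * y) ^ 4 := by rw [e]
  have hn' : (n : ℤ) ≠ 0 := by exact_mod_cast hn.ne'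
  have h1 : (n : ℤ) * x ^ 4 = n * x' ^ 4 := by
    have e1 : x ^ 4 * (x' ^ 4 + y' ^ 4) = x' ^ 4 * (x ^ 4 + y ^ 4) := by
      linear_combination e4
    rw [h, h'] at e1
    linarith
  have h2 := mul_left_cancel₀ hn' h1
  exact ⟨h2, by linarith⟩

theorem cross_le {n : ℕ} {x y x' y' : ℤ} (h : x ^ 4 + y ^ 4 = n) (h' : x' ^ 4 + y' ^ 4 = n) :
    (x * y' - x' * y) ^ 2 ≤ 2 * n := by
  have h1 : (x ^ 2 + y ^ 2) ^ 2 ≤ 2 * n := by nlinarith [sq_nonneg (x ^ 2 - y ^ 2)]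
  have h2 : (x' ^ 2 + y' ^ 2) ^ 2 ≤ 2 * n := by nlinarith [sq_nonneg (x' ^ 2 - y' ^ 2)]
  have h3 : (x * y' - x' * y) ^ 2 ≤ (x ^ 2 + y ^ 2) * (x' ^ 2 + y' ^ 2) := by
    nlinarith [sq_nonneg (x * x' + y * y')]
  nlinarith [sq_nonneg (x ^ 2 + y ^ 2 - (x' ^ 2 + y' ^ 2))]

/-- the main inequality for three vectors -/
theorem three_vectors {n N : ℕ} (hn : 0 < n) {t : ℤ} (x y : Fin 3 → ℤ)
    (hd : ∀ i, (N : ℤ) ∣ x i - t * y i) (hQ : ∀ i, x i ^ 4 + y i ^ 4 = n)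
    (hne : ∀ i j, i ≠ j → ¬ (x i ^ 4 = x j ^ 4 ∧ y i ^ 4 = y j ^ 4)) :
    25 * N ^ 2 ≤ 2 * n := by
  classical
  by_contra hcon
  have hcon' : (2 * n : ℤ) < 25 * (N : ℤ) ^ 2 := by
    have : 2 * n < 25 * N ^ 2 := not_le.1 hcon
    exact_mod_cast this
  have hcr : ∀ i j, (N : ℤ) ∣ x i * y j - x j * y i := by
    intro i j
    obtain ⟨u, hu⟩ := hd i
    obtain ⟨v, hv⟩ := hd j
    exact ⟨u * y j - v * y i, by linear_combination y j * hu - y i * hv⟩
  have hN : 0 < N := by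
    rcases Nat.eq_zero_or_pos N with h | h
    · rw [h] at hcon'
      push_cast at hcon'
      linarith [(Int.natCast_nonneg n : (0 : ℤ) ≤ n)]
    · exact h
  have hN' : (0 : ℤ) < N := by exact_mod_cast hN
  obtain ⟨e0, he0⟩ := hcr 1 2
  obtain ⟨e1, he1⟩ := hcr 2 0
  obtain ⟨e2, he2⟩ := hcr 0 1
  have n0 : x 1 * y 2 - x 2 * y 1 ≠ 0 := cross_ne hn (hQ 1) (hQ 2) (hne 1 2 (by decide))
  have n1 : x 2 * y 0 - x 0 * y 2 ≠ 0 := cross_ne hn (hQ 2) (hQ 0) (hne 2 0 (by decide))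
  have n2 : x 0 * y 1 - x 1 * y 0 ≠ 0 := cross_ne hn (hQ 0) (hQ 1) (hne 0 1 (by decide))
  have b0 := cross_le (hQ 1) (hQ 2)
  have b1 := cross_le (hQ 2) (hQ 0)
  have b2 := cross_le (hQ 0) (hQ 1)
  -- the relation
  have rx : e0 * x 0 + e1 * x 1 + e2 * x 2 = 0 := by
    have : (N : ℤ) * (e0 * x 0 + e1 * x 1 + e2 * x 2) = 0 := by
      linear_combination (-x 0) * he0 + (-x 1) * he1 + (-x 2) * he2
    exact (mul_eq_zero.1 this).resolve_left hN'.ne'
  have ry : e0 * y 0 + e1 * y 1 + e2 * y 2 = 0 := by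
    have : (N : ℤ) * (e0 * y 0 + e1 * y 1 + e2 * y 2) = 0 := by
      linear_combination (-y 0) * he0 + (-y 1) * he1 + (-y 2) * he2
    exact (mul_eq_zero.1 this).resolve_left hN'.ne'
  have bound : ∀ e D : ℤ, D = N * e → D ≠ 0 → D ^ 2 ≤ 2 * n → 1 ≤ |e| ∧ |e| ≤ 4 := by
    intro e D hD hD0 hDn
    have h1 : e ≠ 0 := by
      rintro rfl
      exact hD0 (by rw [hD]; ring)
    refine ⟨Int.one_le_abs h1, ?_⟩
    by_contra hc
    have h5 : 5 ≤ |e| := by omega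
    have h6 : (25 : ℤ) ≤ e ^ 2 := by
      rw [← sq_abs]
      nlinarith
    have h7 : 25 * (N : ℤ) ^ 2 ≤ D ^ 2 := by
      rw [hD, mul_pow]
      nlinarith [sq_nonneg (N : ℤ)]
    linarith
  have c0 := bound e0 _ he0 n0 b0
  have c1 := bound e1 _ he1 n1 b1
  have c2 := bound e2 _ he2 n2 b2
  let e : Fin 3 → ℤ := ![e0, e1, e2]
  have he : ∀ i, 1 ≤ |e i| ∧ |e i| ≤ 4 := by
    intro i
    fin_cases i
    · exact c0
    · exact c1
    · exact c2
  have hs : ∀ i, (e i).sign = 1 ∨ (e i).sign = -1 := by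
    intro i
    have : e i ≠ 0 := by
      intro h
      have := (he i).1
      rw [h] at this
      norm_num at this
    rcases lt_or_gt_of_ne this with h | h
    · exact Or.inr (Int.sign_eq_neg_one_of_neg h)
    · exact Or.inl (Int.sign_eq_one_of_pos h)
  have hs4 : ∀ i, (e i).sign ^ 4 = 1 := by
    intro i
    rcases hs i with h | h <;> rw [h] <;> norm_num
  have hab : ∀ i (z : ℤ), |e i| * ((e i).sign * z) = e i * z := by
    intro i z
    rw [← mul_assoc, mul_comm |e i|, Int.sign_mul_abs]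
  refine no_small_relation n (fun i => (e i).sign * x i) (fun i => (e i).sign * y i)
    (fun i => |e i|) hn ?_ ?_ ?_ he ?_ ?_
  · intro i
    simp only [mul_pow, hs4, one_mul]
    exact hQ i
  · rintro i j hij ⟨h1, h2⟩
    apply hne i j hij
    constructor
    · have := congrArg (fun z => z ^ 4) h1
      simpa only [mul_pow, hs4, one_mul] using this
    · have := congrArg (fun z => z ^ 4) h2
      simpa only [mul_pow, hs4, one_mul] using this
  · rintro i j hij ⟨h1, h2⟩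
    apply hne i j hij
    constructor
    · have := congrArg (fun z => z ^ 4) h1
      simpa only [mul_pow, hs4, one_mul, neg_pow, show ((-1 : ℤ)) ^ 4 = 1 by norm_num] using this
    · have := congrArg (fun z => z ^ 4) h2
      simpa only [mul_pow, hs4, one_mul, neg_pow, show ((-1 : ℤ)) ^ 4 = 1 by norm_num] using this
  · simp only [hab]
    exact rx
  · simp only [hab]
    exact ry

/-- at most two representations in a class modulo a large number -/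
theorem class_le_two (n N : ℕ) (t : ℤ) (h : 2 * n < 25 * N ^ 2) :
    {q | q ∈ repSet n ∧ InClass N t q}.ncard ≤ 2 := by
  classical
  by_contra hcon
  have hfin : {q | q ∈ repSet n ∧ InClass N t q}.Finite :=
    (repSet_finite n).subset fun q hq => hq.1
  obtain ⟨q0, h0, q1, h1, q2, h2, h01, h02, h12⟩ :=
    (Set.two_lt_ncard hfin).1 (not_le.1 hcon)
  obtain ⟨x0, y0, d0, Q0, a0⟩ := exists_vector h0.1 h0.2
  obtain ⟨x1, y1, d1, Q1, a1⟩ := exists_vector h1.1 h1.2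
  obtain ⟨x2, y2, d2, Q2, a2⟩ := exists_vector h2.1 h2.2
  have hn : 0 < n := by
    have := h0.1.1
    have h3 := h0.1.2.2
    have : 0 < q0.1 ^ 4 := by positivity
    omega
  have hne01 : ¬ (x0 ^ 4 = x1 ^ 4 ∧ y0 ^ 4 = y1 ^ 4) := fun hh =>
    h01 (ne_of_vectors h0.1 h1.1 a0 a1 hh.1 hh.2)
  have hne02 : ¬ (x0 ^ 4 = x2 ^ 4 ∧ y0 ^ 4 = y2 ^ 4) := fun hh =>
    h02 (ne_of_vectors h0.1 h2.1 a0 a2 hh.1 hh.2)
  have hne12 : ¬ (x1 ^ 4 = x2 ^ 4 ∧ y1 ^ 4 = y2 ^ 4) := fun hh =>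
    h12 (ne_of_vectors h1.1 h2.1 a1 a2 hh.1 hh.2)
  have := three_vectors (n := n) (N := N) hn (t := t) ![x0, x1, x2] ![y0, y1, y2]
    (by intro i; fin_cases i <;> assumption) (by intro i; fin_cases i <;> assumption)
    (by
      intro i j hij
      fin_cases i <;> fin_cases j
      · exact absurd rfl hij
      · exact hne01
      · exact hne02
      · exact fun hh => hne01 ⟨hh.1.symm, hh.2.symm⟩
      · exact absurd rfl hij
      · exact hne12
      · exact fun hh => hne02 ⟨hh.1.symm, hh.2.symm⟩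
      · exact fun hh => hne12 ⟨hh.1.symm, hh.2.symm⟩
      · exact absurd rfl hij)
  omega

/-- modulo a prime power dividing `n` all representations lie in one class -/
theorem one_class {n p e : ℕ} (hp : p.Prime) (hp2 : p ≠ 2) (h4 : ¬ p ^ 4 ∣ n)
    (hd : p ^ e ∣ n) : ∃ t : ℤ, ∀ q ∈ repSet n, InClass (p ^ e) t q := by
  rcases Nat.eq_zero_or_pos e with rfl | he
  · exact ⟨0, fun q _ => Or.inl (by simp)⟩
  rcases (repSet n).eq_empty_or_nonempty with hem | ⟨q0, hq0⟩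
  · exact ⟨0, fun q hq => by rw [hem] at hq; exact hq.elim⟩
  have hpi : Prime (p : ℤ) := Nat.prime_iff_prime_int.1 hp
  have hpn : (p : ℤ) ∣ n := by
    have : p ∣ n := (dvd_pow_self p he.ne').trans hd
    exact_mod_cast this
  have hP : ((p ^ e : ℕ) : ℤ) ∣ n := by exact_mod_cast hd
  have h4' : ¬ (p : ℤ) ^ 4 ∣ n := by
    intro h
    apply h4
    exact_mod_cast h
  -- the entries are prime to `p`
  have hcop : ∀ q ∈ repSet n, ¬ (p : ℤ) ∣ q.1 ∧ ¬ (p : ℤ) ∣ q.2 := by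
    intro q hq
    have h3 : (q.1 : ℤ) ^ 4 + (q.2 : ℤ) ^ 4 = n := by exact_mod_cast hq.2.2
    have both : ∀ a b : ℤ, a ^ 4 + b ^ 4 = n → ¬ (p : ℤ) ∣ a := by
      intro a b hab ha
      have h5 : (p : ℤ) ∣ b ^ 4 := by
        have : b ^ 4 = n - a ^ 4 := by linarith
        rw [this]
        exact dvd_sub hpn (dvd_pow ha (by norm_num))
      have hb := hpi.dvd_of_dvd_pow h5
      apply h4'
      rw [← hab]
      exact dvd_add (pow_dvd_pow_of_dvd ha 4) (pow_dvd_pow_of_dvd hb 4)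
    exact ⟨both _ _ h3, both _ (q.1 : ℤ) (by linarith)⟩
  have hQ : ∀ q ∈ repSet n, (q.1 : ℤ) ^ 4 + (q.2 : ℤ) ^ 4 = n := fun q hq => by
    exact_mod_cast hq.2.2
  obtain ⟨u, w, huw⟩ : IsCoprime (q0.2 : ℤ) ((p : ℤ) ^ e) :=
    (((Prime.coprime_iff_not_dvd hpi).2 (hcop q0 hq0).2).symm).pow_right
  set t : ℤ := q0.1 * u with ht
  have hPe : ((p ^ e : ℕ) : ℤ) = (p : ℤ) ^ e := by push_cast; rfl
  have ht4 : (p : ℤ) ^ e ∣ t ^ 4 + 1 := by
    have h5 : IsCoprime ((p : ℤ) ^ e) ((q0.2 : ℤ) ^ 4) := by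
      have : IsCoprime (q0.2 : ℤ) ((p : ℤ) ^ e) := ⟨u, w, huw⟩
      exact this.symm.pow_right
    apply h5.dvd_of_dvd_mul_left
    have h6 : (q0.2 : ℤ) * t = q0.1 - q0.1 * w * (p : ℤ) ^ e := by
      rw [ht]
      linear_combination (q0.1 : ℤ) * huw
    have h7 : (p : ℤ) ^ e ∣ ((q0.2 : ℤ) * t) ^ 4 - (q0.1 : ℤ) ^ 4 := by
      refine dvd_trans ?_ (sub_dvd_pow_sub_pow _ _ 4)
      rw [h6]
      exact ⟨-(q0.1 * w), by ring⟩
    have h8 : (q0.2 : ℤ) ^ 4 * (t ^ 4 + 1) =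
        (((q0.2 : ℤ) * t) ^ 4 - (q0.1 : ℤ) ^ 4) + ((q0.1 : ℤ) ^ 4 + (q0.2 : ℤ) ^ 4) := by ring
    rw [h8, hQ q0 hq0]
    rw [hPe] at hP
    exact dvd_add h7 hP
  have hpt : (p : ℤ) ∣ t ^ 4 + 1 := (dvd_pow_self _ he.ne').trans ht4
  have hptwo : ¬ (p : ℤ) ∣ 2 := by
    intro h
    have : p ∣ 2 := by exact_mod_cast h
    exact hp2 ((Nat.prime_dvd_prime_iff_eq hp Nat.prime_two).1 this)
  have hm : ¬ (p : ℤ) ∣ 1 - t ^ 2 := by
    intro h
    apply hptwo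
    have h5 : (2 : ℤ) = (t ^ 4 + 1) + (1 - t ^ 2) * (1 + t ^ 2) := by ring
    rw [h5]
    exact dvd_add hpt (h.mul_right _)
  have hpl : ¬ (p : ℤ) ∣ 1 + t ^ 2 := by
    intro h
    apply hptwo
    have h5 : (2 : ℤ) = (t ^ 4 + 1) + (1 + t ^ 2) * (1 - t ^ 2) := by ring
    rw [h5]
    exact dvd_add hpt (h.mul_right _)
  refine ⟨t, fun q hq => ?_⟩
  obtain ⟨ha, hb⟩ := hcop q hq
  have hq3 := hQ q hq
  unfold InClass
  rw [hPe]
  rw [hPe] at hP
  generalize (q.1 : ℤ) = a at *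
  generalize (q.2 : ℤ) = b at *
  have hprod : (p : ℤ) ^ e ∣ (a - t * b) * ((a + t * b) * ((b - t * a) * (b + t * a))) := by
    have : (a - t * b) * ((a + t * b) * ((b - t * a) * (b + t * a))) =
        a ^ 2 * b ^ 2 * (t ^ 4 + 1) - t ^ 2 * (a ^ 4 + b ^ 4) := by ring
    rw [this, hq3]
    exact dvd_sub (ht4.mul_left _) (hP.mul_left _)
  have n12 : (p : ℤ) ∣ a - t * b → ¬ (p : ℤ) ∣ a + t * b := by
    intro h1 h2
    have h5 : (p : ℤ) ∣ 2 * a := by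
      have : 2 * a = (a - t * b) + (a + t * b) := by ring
      rw [this]
      exact dvd_add h1 h2
    exact (hpi.dvd_or_dvd h5).elim hptwo ha
  have n34 : (p : ℤ) ∣ b - t * a → ¬ (p : ℤ) ∣ b + t * a := by
    intro h1 h2
    have h5 : (p : ℤ) ∣ 2 * b := by
      have : 2 * b = (b - t * a) + (b + t * a) := by ring
      rw [this]
      exact dvd_add h1 h2
    exact (hpi.dvd_or_dvd h5).elim hptwo hb
  have n13 : (p : ℤ) ∣ a - t * b → ¬ (p : ℤ) ∣ b - t * a := by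
    intro h1 h2
    have h5 : (p : ℤ) ∣ a * (1 - t ^ 2) := by
      have : a * (1 - t ^ 2) = (a - t * b) + t * (b - t * a) := by ring
      rw [this]
      exact dvd_add h1 (h2.mul_left _)
    exact (hpi.dvd_or_dvd h5).elim ha hm
  have n14 : (p : ℤ) ∣ a - t * b → ¬ (p : ℤ) ∣ b + t * a := by
    intro h1 h2
    have h5 : (p : ℤ) ∣ a * (1 + t ^ 2) := by
      have : a * (1 + t ^ 2) = (a - t * b) + t * (b + t * a) := by ring
      rw [this]
      exact dvd_add h1 (h2.mul_left _)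
    exact (hpi.dvd_or_dvd h5).elim ha hpl
  have n23 : (p : ℤ) ∣ a + t * b → ¬ (p : ℤ) ∣ b - t * a := by
    intro h1 h2
    have h5 : (p : ℤ) ∣ a * (1 + t ^ 2) := by
      have : a * (1 + t ^ 2) = (a + t * b) - t * (b - t * a) := by ring
      rw [this]
      exact dvd_sub h1 (h2.mul_left _)
    exact (hpi.dvd_or_dvd h5).elim ha hpl
  have n24 : (p : ℤ) ∣ a + t * b → ¬ (p : ℤ) ∣ b + t * a := by
    intro h1 h2
    have h5 : (p : ℤ) ∣ a * (1 - t ^ 2) := by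
      have : a * (1 - t ^ 2) = (a + t * b) - t * (b + t * a) := by ring
      rw [this]
      exact dvd_sub h1 (h2.mul_left _)
    exact (hpi.dvd_or_dvd h5).elim ha hm
  by_cases h1 : (p : ℤ) ∣ a - t * b
  · left
    refine hpi.pow_dvd_of_dvd_mul_right e ?_ hprod
    intro h
    rcases hpi.dvd_or_dvd h with h | h
    · exact n12 h1 h
    · rcases hpi.dvd_or_dvd h with h | h
      · exact n13 h1 h
      · exact n14 h1 h
  · have hprod2 := hpi.pow_dvd_of_dvd_mul_left e h1 hprod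
    by_cases h2 : (p : ℤ) ∣ a + t * b
    · right
      left
      refine hpi.pow_dvd_of_dvd_mul_right e ?_ hprod2
      intro h
      rcases hpi.dvd_or_dvd h with h | h
      · exact n23 h2 h
      · exact n24 h2 h
    · have hprod3 := hpi.pow_dvd_of_dvd_mul_left e h2 hprod2
      right
      right
      by_cases h3 : (p : ℤ) ∣ b - t * a
      · left
        exact hpi.pow_dvd_of_dvd_mul_right e (n34 h3) hprod3
      · right
        exact hpi.pow_dvd_of_dvd_mul_left e h3 hprod3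

/-- (1) If `2 n < 25 N ^ 2`, then at most two representations of `n` as a sum of two positive
fourth powers lie in a given class modulo `N`. (2) If a power `p ^ e` of an odd prime `p` with
`p ^ 4 ∤ n` divides `n` and `2 n < 25 p ^ (2 e)`, then `r4 n ≤ 2`. -/
theorem result :
    (∀ (n N : ℕ) (t : ℤ), 2 * n < 25 * N ^ 2 → {q | q ∈ repSet n ∧ InClass N t q}.ncard ≤ 2) ∧
    (∀ n p e : ℕ, p.Prime → p ≠ 2 → ¬ p ^ 4 ∣ n → p ^ e ∣ n → 2 * n < 25 * (p ^ e) ^ 2 →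
      r4 n ≤ 2) := by
  refine ⟨class_le_two, fun n p e hp hp2 h4 hd h => ?_⟩
  obtain ⟨t, ht⟩ := one_class hp hp2 h4 hd
  have h1 := class_le_two n (p ^ e) t h
  have h2 : {q | q ∈ repSet n ∧ InClass (p ^ e) t q} = repSet n := by
    ext q
    exact ⟨fun hq => hq.1, fun hq => ⟨hq, ht q hq⟩⟩
  rw [h2] at h1
  exact h1

end Pool.Agent.Results.MP_a53fdd_nt.LargePrimePower
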