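import Mathlib
import Pool.Agent.QuarticRank.Final

/-!
For a squarefree number `n` the number `r` of its representations as a sum of two positive fourth
powers satisfies `4 r² ≤ 2 ^ rank E(ℚ)`, where `E` is the elliptic curve `y² = x³ - n x`.  In
particular three different representations force `rank E(ℚ) ≥ 6`.
-/

namespace Pool.Agent.Results.MP_a53fdd_nt.RankBound

open Pool.Agent.QuarticRank

theorem result (n : ℕ) (hsq : Squarefree n) (hn : n ≠ 2) :
    4 * (r4 n : Cardinal.{0}) ^ 2 ≤ 2 ^ Module.rank ℤ (curve (-(n : ℚ))).Point ∧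
    (3 ≤ r4 n → 6 ≤ Module.rank ℤ (curve (-(n : ℚ))).Point) := by
  have h1 := boundA n hsq hn
  refine ⟨h1, fun h3 => ?_⟩
  have h2 : ((36 : ℕ) : Cardinal.{0}) ≤ 2 ^ Module.rank ℤ (curve (-(n : ℚ))).Point := by
    refine le_trans ?_ h1
    have h4 : 36 ≤ 4 * (r4 n) ^ 2 := by nlinarith
    exact_mod_cast h4
  exact_mod_cast le_of_pow_lt (k := 6) h2 (by norm_num)

end Pool.Agent.Results.MP_a53fdd_nt.RankBound
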